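import Pool.Agent.Kol.Conv
import Pool.Agent.Kol.Dens
import Pool.Agent.Kol.Morph
import Pool.Agent.Kol.Lower
import Pool.Agent.Kol.UpLog

/-!
# The Kolakoski word: morphic with `O(n log n)` factors, or at least about `n log n` factors
-/

namespace Pool.Agent.Results.MP_347faf_co.NLogN

open Filter Topology Pool.Agent.KolW

theorem result (k : ℕ → ℕ) (hk : ∀ n, k n = 1 ∨ k n = 2)
    (hs : ∃ s : ℕ → ℕ, s 0 = 0 ∧ ∀ i, s (i + 1) = s i + k i ∧
      ∀ j, s i ≤ j → j < s (i + 1) → k j = (if i % 2 = 0 then 2 else 1)) :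
    (Morphic k ∧
      (∃ N : ℕ, ∀ i, OnePar k N i) ∧
      (∃ w, Cinf w ∧ ¬ Factor k w) ∧
      (∃ C : ℝ, ∀ n : ℕ, 1 ≤ n → (cplx k n : ℝ) ≤ C * (n * Real.log (n + 1))) ∧
      ((∀ n i, BGap k n i) → ∃ C : ℕ, ∀ n : ℕ, 1 ≤ n → cplx k n ≤ C * n) ∧
      ∀ x : ℝ, Tendsto
        (fun n : ℕ => (((Finset.range n).filter (fun i => k i = 2)).card : ℝ) / n)
        atTop (𝓝 x) → IsIntegral ℤ (1 + x) ∧ Irrational x) ∨
    ((∀ n : ℕ, 1 + ∑ i ∈ Finset.range n, Nat.log 2 (i + 1) ≤ cplx k n) ∧
      (((∀ w, Cinf w → Factor k w) ∧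
          ∃ c : ℝ, 0 < c ∧ ∀ n : ℕ, c * (n : ℝ) ^ (12 / 5 : ℝ) ≤ cplx k n) ∨
        ((∃ w, Cinf w ∧ ¬ Factor k w) ∧ (∃ n i, OnePar k n i) ∧
          ∀ n i, OnePar k n i → ¬ BGap k n i))) := by
  obtain ⟨s, s0, hs'⟩ := hs
  have K : Kol k s := ⟨hk, s0, fun i => (hs' i).1, fun i j h1 h2 => (hs' i).2 j h1 h2⟩
  have hcp : ∀ n, cplx k n = (Fs k n).card := fun n => ncard_eq K n
  have hfac : ∀ w : List ℕ, Factor k w ↔ ∃ i, win k i w.length = w := by
    have hget : ∀ i n j (h : j < (win k i n).length), (win k i n)[j] = k (i + j) := by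
      intro i n
      induction n generalizing i with
      | zero => intro j h; simp [win] at h
      | succ n ih =>
        intro j h
        cases j with
        | zero => simp [win]
        | succ j =>
          simp only [win, List.getElem_cons_succ]
          rw [ih]
          congr 1; ring
    intro w
    constructor
    · rintro ⟨i, hi⟩
      refine ⟨i, List.ext_getElem (win_length _ _ _) (fun j h1 h2 => ?_)⟩
      rw [hget, hi j h2]
    · rintro ⟨i, hi⟩
      refine ⟨i, fun j h => ?_⟩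
      have h' : j < (win k i w.length).length := by rw [win_length]; exact h
      have := hget i w.length j h'
      rw [← this]
      congr 1
      exact hi.symm
  -- some smooth word is missing if `k` is not free
  have hmiss : ¬ Free k → ∃ w, Cinf w ∧ ¬ Factor k w := by
    intro hF
    by_contra hc
    push Not at hc
    exact hF (K.free_of_cinf (fun w hw => (hfac w).1 (hc w hw)))
  -- a factor at one parity which occurs with bounded gaps: the parity is determined by windows
  have hone : ∀ n i, OnePar k n i → BGap k n i → ∃ N, 9 ≤ N ∧ Det k N := by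
    rintro n0 i0 h0 ⟨R, hR⟩
    refine ⟨max (R + n0) 9, le_max_right _ _, fun i i' h => ?_⟩
    obtain ⟨m, hm1, hm2, hm3⟩ := hR i
    have h1 := h0 m hm3
    have h2 := h0 (i' + (m - i)) (fun t ht => by
      rw [← hm3 t ht]
      have := h ((m - i) + t) (by
        have := le_max_left (R + n0) 9
        omega)
      rw [show i + (m - i + t) = m + t by omega] at this
      rw [this]
      congr 1; ring)
    omega
  by_cases hdet : ∃ N, 9 ≤ N ∧ Det k N
  · left
    obtain ⟨N, hN, hD⟩ := hdet
    have hF : ¬ Free k := by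
      intro hF
      obtain ⟨j, hj, hj'⟩ := hF N 0
      exact hj (hD j 0 hj')
    refine ⟨morphic K hN hD, ⟨N, fun i j h => hD j i h⟩, hmiss hF, ?_, ?_,
      fun x hx => dens_integral K hN hD x hx⟩
    · refine ⟨(Fs k (N + 2)).card * (18 / Real.log 2), fun n hn => ?_⟩
      rw [hcp]
      have h1 := det_log K hN hD n hn
      have h1' : ((Fs k n).card : ℝ) ≤
          (Fs k (N + 2)).card * ((4 * (Nat.clog 2 n : ℝ) + 1) * (n + 1)) := by
        exact_mod_cast h1
      have hl2 : 0 < Real.log 2 := Real.log_pos (by norm_num)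
      have hn1 : (1 : ℝ) ≤ n := by exact_mod_cast hn
      have hlog : Real.log n ≤ Real.log (n + 1) :=
        Real.log_le_log (by linarith) (by linarith)
      have hlog2 : Real.log 2 ≤ Real.log (n + 1) :=
        Real.log_le_log (by norm_num) (by linarith)
      have h2 : (Nat.clog 2 n : ℝ) * Real.log 2 ≤ Real.log n + Real.log 2 := by
        rcases Nat.lt_or_ge 1 n with h | h
        · have h3 := Nat.pow_pred_clog_lt_self (b := 2) (by norm_num) h
          have h4 := Nat.clog_pos (b := 2) (by norm_num) h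
          have h5 : ((2 : ℝ) ^ (Nat.clog 2 n).pred) ≤ n := by exact_mod_cast h3.le
          have h6 := Real.log_le_log (by positivity) h5
          rw [Real.log_pow] at h6
          have h7 : ((Nat.clog 2 n).pred : ℝ) = Nat.clog 2 n - 1 := by
            rw [Nat.pred_eq_sub_one, Nat.cast_sub h4]; simp
          rw [h7] at h6
          linarith
        · have : n = 1 := by omega
          subst this
          simp [hl2.le]
      have h8 : 4 * (Nat.clog 2 n : ℝ) + 1 ≤ 9 / Real.log 2 * Real.log (n + 1) := by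
        rw [div_mul_eq_mul_div, le_div_iff₀ hl2]
        nlinarith
      have h9 : (4 * (Nat.clog 2 n : ℝ) + 1) * (n + 1) ≤
          (9 / Real.log 2 * Real.log (n + 1)) * (2 * n) := by
        apply mul_le_mul h8 (by linarith) (by positivity)
        exact mul_nonneg (div_nonneg (by norm_num) hl2.le) (hl2.le.trans hlog2)
      calc ((Fs k n).card : ℝ) ≤ _ := h1'
        _ ≤ (Fs k (N + 2)).card * ((9 / Real.log 2 * Real.log (n + 1)) * (2 * n)) :=
            mul_le_mul_of_nonneg_left h9 (by positivity)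
        _ = _ := by ring
    · intro hgap
      obtain ⟨C, hC⟩ := det_upper K (fun n i _ => hgap n i) hN hD
      exact ⟨C, fun n hn => by rw [hcp]; exact hC n hn⟩
  · right
    have hnd : ∀ N, ¬ Det k N := by
      intro N hD
      apply hdet
      refine ⟨max N 9, le_max_right _ _, fun i i' h => hD i i' (fun t ht => h t ?_)⟩
      exact lt_of_lt_of_le ht (le_max_left _ _)
    refine ⟨fun n => by rw [hcp]; exact lower_log K hnd n, ?_⟩
    by_cases hF : Free k
    · left
      refine ⟨fun w hw => (hfac w).2 (cinf_occurs K hF _ w rfl hw), ?_⟩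
      refine ⟨((15 ^ 12 * 3 ^ 5 : ℝ) ^ (1 / 5 : ℝ))⁻¹, by positivity, fun n => ?_⟩
      rw [hcp]
      have h1 := free_lower K hF n
      have h2 : ((n : ℝ) ^ 12) ≤ (15 ^ 12 * 3 ^ 5 : ℝ) * ((Fs k n).card : ℝ) ^ 5 := by
        exact_mod_cast h1
      have h3 : ((n : ℝ) ^ 12) ^ (1 / 5 : ℝ) ≤
          ((15 ^ 12 * 3 ^ 5 : ℝ) * ((Fs k n).card : ℝ) ^ 5) ^ (1 / 5 : ℝ) :=
        Real.rpow_le_rpow (by positivity) h2 (by norm_num)
      have h4 : ((n : ℝ) ^ 12) ^ (1 / 5 : ℝ) = (n : ℝ) ^ (12 / 5 : ℝ) := by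
        rw [← Real.rpow_natCast, ← Real.rpow_mul (by positivity)]
        norm_num
      have h5 : ((15 ^ 12 * 3 ^ 5 : ℝ) * ((Fs k n).card : ℝ) ^ 5) ^ (1 / 5 : ℝ) =
          (15 ^ 12 * 3 ^ 5 : ℝ) ^ (1 / 5 : ℝ) * ((Fs k n).card : ℝ) := by
        rw [Real.mul_rpow (by positivity) (by positivity)]
        congr 1
        rw [← Real.rpow_natCast, ← Real.rpow_mul (by positivity)]
        norm_num
      rw [h4, h5] at h3
      rw [inv_mul_le_iff₀ (by positivity)]
      exact h3
    · right
      refine ⟨hmiss hF, ?_, fun n i h1 h2 => hdet (hone n i h1 h2)⟩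
      unfold Free at hF
      push Not at hF
      obtain ⟨n0, i0, h0⟩ := hF
      refine ⟨n0, i0, fun j hj => ?_⟩
      by_contra hc
      obtain ⟨t, ht, ht'⟩ := h0 j hc
      exact ht' (hj t ht)

end Pool.Agent.Results.MP_347faf_co.NLogN
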